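import Pool.Agent.Helper50.AY.St

/-! Project AY (helper50), MP_b3ce06_al: module UT1 -/

set_option autoImplicit false

namespace Pool.Agent.Helper2.AY

open Pool.Agent.Helper50.AY Pool.Agent.Helper43.GD Polynomial

/-- module UT1 -/
theorem hUT1 (hP1 : Pool.Agent.Helper43.GD.StP1) : StUT1 := by
  intro L A _ _ Q p _ x ev hev f hf hIn u huf g h hg hh hgd hhd σ hσ
  have hfp : Prime f := hf.prime
  have hf0 : f ≠ 0 := hf.ne_zero
  have hdpos : 0 < f.natDegree := hf.natDegree_pos
  have hdiv : f * ((g * h) / f) + (g * h) % f = g * h := EuclideanDomain.div_add_mod _ _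
  set q := (g * h) / f with hq
  set r := (g * h) % f with hr
  have hnd : ∀ k : (ZMod p)[X], k ≠ 0 → k.natDegree < f.natDegree → ¬ f ∣ k := by
    intro k hk hkd hdvd
    have := Polynomial.natDegree_le_of_dvd hdvd hk
    omega
  have hr0 : r ≠ 0 := by
    intro h0
    have hdvd : f ∣ g * h := by
      rw [← hdiv, h0, add_zero]
      exact dvd_mul_right _ _
    rcases hfp.dvd_or_dvd hdvd with h1 | h1
    · exact hnd g hg hgd h1
    · exact hnd h hh hhd h1
  have hrd : r.natDegree < f.natDegree := Polynomial.natDegree_mod_lt _ hdpos.ne'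
  obtain ⟨ug, hugU, hug⟩ := hIn g hg hgd
  obtain ⟨uh, huhU, huh⟩ := hIn h hh hhd
  obtain ⟨ur, hurU, hur⟩ := hIn r hr0 hrd
  have hσ' : σ * ur = ug * uh := by
    apply Units.ext
    push_cast
    rw [hug, huh, hur]
    exact hσ
  have hσU : σ ∈ Q.U := by
    have : σ = ug * uh * ur⁻¹ := by rw [← hσ', mul_inv_cancel_right]
    rw [this]
    exact Q.U.mul_mem (Q.U.mul_mem hugU huhU) (Q.U.inv_mem hurU)
  have e1 : (σ : L) * ev r = ev f * ev q + ev r := by
    rw [hσ, ← map_mul, ← hdiv, map_add, map_mul]
  have e2 : ((σ : L) - 1) * u * ev r = ev q := by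
    have : ((σ : L) - 1) * u * ev r = (u : L) * ((σ : L) * ev r - ev r) := by ring
    rw [this, e1, add_sub_cancel_right, ← mul_assoc, huf, one_mul]
  by_cases hq0 : q = 0
  · have h1 : (σ : L) * ev r = ev r := by rw [e1, hq0, map_zero, mul_zero, zero_add]
    have h2 : σ = 1 := by
      apply Units.ext
      rw [← hur] at h1
      have := congrArg (fun z => z * ((ur⁻¹ : Lˣ) : L)) h1
      simp only [mul_assoc, Units.mul_inv, mul_one] at this
      rw [this, Units.val_one]
    rw [h2]
    exact Q.S_one u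
  · have hqd : q.natDegree < f.natDegree := by
      have h1 : f * q = g * h - r := by rw [← hdiv]; ring
      have h2 : (f * q).natDegree = f.natDegree + q.natDegree := natDegree_mul hf0 hq0
      have h3 : (g * h - r).natDegree ≤ max (g * h).natDegree r.natDegree := natDegree_sub_le _ _
      have h4 : (g * h).natDegree = g.natDegree + h.natDegree := natDegree_mul hg hh
      rw [← h1, h2, h4] at h3
      have h5 : max (g.natDegree + h.natDegree) r.natDegree < 2 * f.natDegree := by
        apply max_lt <;> omega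
      omega
    obtain ⟨uq, huqU, huq⟩ := hIn q hq0 hqd
    apply hP1 L A Q u σ (uq * ur⁻¹) hσU (Q.U.mul_mem huqU (Q.U.inv_mem hurU))
    push_cast
    rw [huq, ← e2, ← hur, mul_assoc, Units.mul_inv, mul_one]

end Pool.Agent.Helper2.AY
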